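import Mathlib

/-!
# Double sequences of numbers which multiply like Hodge numbers

Two double sequences (of finite support) whose powers, multiplied by the powers of a third one, agree
up to subexponential factors and sublinear shifts of the indices, are equal.
-/

set_option autoImplicit false

open Finset Polynomial

namespace Pool.Agent.Q173.GF

/-- The polynomial `∑ h p q x ^ q y ^ p`, `p, q ≤ n`. -/
noncomputable def poly (n : ℕ) (h : ℕ → ℕ → ℕ) : ℝ[X][X] :=
  ∑ p ∈ range (n + 1), monomial p (∑ q ∈ range (n + 1), monomial q (h p q : ℝ))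

theorem coeff_poly (n : ℕ) (h : ℕ → ℕ → ℕ) (p q : ℕ) :
    ((poly n h).coeff p).coeff q = if p ≤ n ∧ q ≤ n then (h p q : ℝ) else 0 := by
  unfold poly
  rw [finsetSum_coeff]
  simp only [coeff_monomial]
  rw [Finset.sum_ite_eq' (range (n + 1)) p]
  by_cases hp : p ≤ n
  · rw [if_pos (Finset.mem_range.2 (by omega)), finsetSum_coeff]
    simp only [coeff_monomial]
    rw [Finset.sum_ite_eq' (range (n + 1)) q]
    by_cases hq : q ≤ n
    · rw [if_pos (Finset.mem_range.2 (by omega)), if_pos ⟨hp, hq⟩]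
    · rw [if_neg (by rw [Finset.mem_range]; omega), if_neg (by tauto)]
  · rw [if_neg (by rw [Finset.mem_range]; omega), if_neg (by tauto), coeff_zero]

/-- The numbers of a product. -/
def conv (h h' : ℕ → ℕ → ℕ) (p q : ℕ) : ℕ :=
  ∑ a ∈ antidiagonal p, ∑ b ∈ antidiagonal q, h a.1 b.1 * h' a.2 b.2

/-- The numbers vanish if one index is larger than `n`. -/
def Supp (n : ℕ) (h : ℕ → ℕ → ℕ) : Prop := ∀ p q, n < p ∨ n < q → h p q = 0

theorem coeff_poly' {n : ℕ} {h : ℕ → ℕ → ℕ} (hs : Supp n h) (p q : ℕ) :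
    ((poly n h).coeff p).coeff q = (h p q : ℝ) := by
  rw [coeff_poly]
  by_cases hc : p ≤ n ∧ q ≤ n
  · rw [if_pos hc]
  · rw [if_neg hc, hs p q (by omega), Nat.cast_zero]

theorem Supp.conv {n n' : ℕ} {h h' : ℕ → ℕ → ℕ} (hs : Supp n h) (hs' : Supp n' h') :
    Supp (n + n') (conv h h') := by
  intro p q hpq
  refine Finset.sum_eq_zero fun a ha => Finset.sum_eq_zero fun b hb => ?_
  have ha' := Finset.HasAntidiagonal.mem_antidiagonal.1 ha
  have hb' := Finset.HasAntidiagonal.mem_antidiagonal.1 hb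
  by_cases h1 : n < a.1 ∨ n < b.1
  · rw [hs _ _ h1, zero_mul]
  · rw [hs' a.2 b.2 (by omega), mul_zero]

theorem poly_conv {n n' : ℕ} {h h' : ℕ → ℕ → ℕ} (hs : Supp n h) (hs' : Supp n' h') :
    poly (n + n') (conv h h') = poly n h * poly n' h' := by
  ext p q
  rw [coeff_poly' (hs.conv hs'), coeff_mul, finsetSum_coeff]
  unfold conv
  push_cast
  refine Finset.sum_congr rfl fun a _ => ?_
  rw [coeff_mul]
  refine Finset.sum_congr rfl fun b _ => ?_
  rw [coeff_poly' hs, coeff_poly' hs']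

/-- The value of the generating function. -/
noncomputable def val (n : ℕ) (h : ℕ → ℕ → ℕ) (x y : ℝ) : ℝ := (poly n h).evalEval x y

theorem val_eq (n : ℕ) (h : ℕ → ℕ → ℕ) (x y : ℝ) :
    val n h x y = ∑ p ∈ range (n + 1), ∑ q ∈ range (n + 1), (h p q : ℝ) * x ^ q * y ^ p := by
  unfold val poly
  rw [evalEval_finsetSum]
  refine Finset.sum_congr rfl fun p _ => ?_
  rw [evalEval, eval_monomial, eval_mul, eval_finsetSum, Finset.sum_mul]
  refine Finset.sum_congr rfl fun q _ => ?_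
  rw [eval_monomial, eval_pow, eval_C]

theorem val_conv {n n' : ℕ} {h h' : ℕ → ℕ → ℕ} (hs : Supp n h) (hs' : Supp n' h') (x y : ℝ) :
    val (n + n') (conv h h') x y = val n h x y * val n' h' x y := by
  unfold val
  rw [poly_conv hs hs', evalEval, eval_mul, eval_mul]

/-- The numbers are determined by the values at positive reals. -/
theorem eq_of_val {n n' : ℕ} {h h' : ℕ → ℕ → ℕ} (hs : Supp n h) (hs' : Supp n' h')
    (hv : ∀ x y : ℝ, 0 < x → 0 < y → val n h x y = val n' h' x y) : h = h' := by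
  have h1 : ∀ y : ℝ, 0 < y → eval (C y) (poly n h) = eval (C y) (poly n' h') := by
    intro y hy
    refine eq_of_infinite_eval_eq _ _ ((Set.Ioi_infinite (0 : ℝ)).mono ?_)
    intro x hx
    exact hv x y hx hy
  have h2 : poly n h = poly n' h' := by
    refine eq_of_infinite_eval_eq _ _ ?_
    have h3 : Set.Infinite ((C : ℝ → ℝ[X]) '' Set.Ioi (0 : ℝ)) :=
      (Set.Ioi_infinite (0 : ℝ)).image (C_injective.injOn)
    refine h3.mono ?_
    rintro _ ⟨y, hy, rfl⟩
    exact h1 y hy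
  funext p q
  have h4 : ((poly n h).coeff p).coeff q = ((poly n' h').coeff p).coeff q := by rw [h2]
  rw [coeff_poly' hs, coeff_poly' hs'] at h4
  exact_mod_cast h4

/-- The value is positive if the first number is. -/
theorem val_pos {n : ℕ} {h : ℕ → ℕ → ℕ} (h0 : 0 < h 0 0) {x y : ℝ} (hx : 0 < x) (hy : 0 < y) :
    0 < val n h x y := by
  rw [val_eq]
  refine Finset.sum_pos' (fun p _ => Finset.sum_nonneg fun q _ => by positivity)
    ⟨0, Finset.mem_range.2 (by omega), Finset.sum_pos' (fun q _ => by positivity)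
      ⟨0, Finset.mem_range.2 (by omega), by
        rw [pow_zero, pow_zero, mul_one, mul_one]
        exact_mod_cast h0⟩⟩

/-- The sum of the numbers `h p' q'` with `|p' - p|, |q' - q| ≤ t`, `p', q' ≤ n`. -/
noncomputable def near (n : ℕ) (h : ℕ → ℕ → ℕ) (t : ℝ) (p q : ℕ) : ℕ :=
  open Classical in
  ∑ i ∈ (range (n + 1) ×ˢ range (n + 1)).filter
    (fun i => |(i.1 : ℝ) - p| ≤ t ∧ |(i.2 : ℝ) - q| ≤ t), h i.1 i.2

theorem pow_le_shift {x M t : ℝ} (hx : 0 < x) (hM : 1 ≤ M) (hxM : x ≤ M) (hxM' : x⁻¹ ≤ M)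
    {a b : ℕ} (hab : |(a : ℝ) - b| ≤ t) : x ^ b ≤ M ^ t * x ^ a := by
  have h1 : x ^ b = x ^ ((b : ℝ) - a) * x ^ a := by
    rw [Real.rpow_sub hx, Real.rpow_natCast, Real.rpow_natCast]
    field_simp
  rw [h1]
  refine mul_le_mul_of_nonneg_right ?_ (by positivity)
  have h2 : |(b : ℝ) - a| ≤ t := by rwa [abs_sub_comm] at hab
  rcases le_total 0 ((b : ℝ) - a) with h3 | h3
  · calc x ^ ((b : ℝ) - a) ≤ M ^ ((b : ℝ) - a) := Real.rpow_le_rpow hx.le hxM h3
      _ ≤ M ^ t := Real.rpow_le_rpow_of_exponent_le hM ((le_abs_self _).trans h2)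
  · calc x ^ ((b : ℝ) - a) = (x⁻¹) ^ (-((b : ℝ) - a)) := by
          rw [Real.inv_rpow hx.le, ← Real.rpow_neg hx.le, neg_neg]
      _ ≤ M ^ (-((b : ℝ) - a)) := Real.rpow_le_rpow (by positivity) hxM' (by linarith)
      _ ≤ M ^ t := Real.rpow_le_rpow_of_exponent_le hM ((neg_le_abs _).trans h2)

/-- A bound for all numbers, up to a shift of the indices, gives a bound for the values. -/
theorem val_le {n : ℕ} {h h' : ℕ → ℕ → ℕ} {K t M x y : ℝ} (hK : 0 ≤ K) (hx : 0 < x) (hy : 0 < y)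
    (hM : 1 ≤ M) (hxM : x ≤ M) (hxM' : x⁻¹ ≤ M) (hyM : y ≤ M) (hyM' : y⁻¹ ≤ M)
    (hle : ∀ p q, (h p q : ℝ) ≤ K * near n h' t p q) :
    val n h x y ≤ K * (M ^ t) ^ 2 * ((n : ℝ) + 1) ^ 2 * val n h' x y := by
  classical
  have hMt : 0 ≤ M ^ t := by positivity
  have key : ∀ p q : ℕ, (h p q : ℝ) * x ^ q * y ^ p ≤ K * (M ^ t) ^ 2 * val n h' x y := by
    intro p q
    have h1 : (near n h' t p q : ℝ) * x ^ q * y ^ p ≤ (M ^ t) ^ 2 * val n h' x y := by
      rw [val_eq, ← Finset.sum_product']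
      unfold near
      push_cast
      rw [Finset.sum_mul, Finset.sum_mul, Finset.mul_sum]
      refine (Finset.sum_le_sum (g := fun i : ℕ × ℕ =>
        (M ^ t) ^ 2 * ((h' i.1 i.2 : ℝ) * x ^ i.2 * y ^ i.1)) fun i hi => ?_).trans
        (Finset.sum_le_sum_of_subset_of_nonneg (Finset.filter_subset _ _) fun i _ _ => ?_)
      · obtain ⟨-, h2, h3⟩ := Finset.mem_filter.1 hi
        have h4 := pow_le_shift hy hM hyM hyM' h2
        have h5 := pow_le_shift hx hM hxM hxM' h3
        have h6 : x ^ q * y ^ p ≤ (M ^ t * x ^ i.2) * (M ^ t * y ^ i.1) :=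
          mul_le_mul h5 h4 (by positivity) (by positivity)
        calc (h' i.1 i.2 : ℝ) * x ^ q * y ^ p = (h' i.1 i.2 : ℝ) * (x ^ q * y ^ p) := by ring
          _ ≤ (h' i.1 i.2 : ℝ) * ((M ^ t * x ^ i.2) * (M ^ t * y ^ i.1)) :=
            mul_le_mul_of_nonneg_left h6 (Nat.cast_nonneg _)
          _ = _ := by ring
      · positivity
    calc (h p q : ℝ) * x ^ q * y ^ p ≤ (K * near n h' t p q) * x ^ q * y ^ p := by
          have := hle p q
          gcongr
      _ = K * ((near n h' t p q : ℝ) * x ^ q * y ^ p) := by ring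
      _ ≤ K * ((M ^ t) ^ 2 * val n h' x y) := mul_le_mul_of_nonneg_left h1 hK
      _ = _ := by ring
  calc val n h x y = ∑ p ∈ range (n + 1), ∑ q ∈ range (n + 1), (h p q : ℝ) * x ^ q * y ^ p :=
        val_eq n h x y
    _ ≤ ∑ p ∈ range (n + 1), ∑ q ∈ range (n + 1), K * (M ^ t) ^ 2 * val n h' x y :=
        Finset.sum_le_sum fun p _ => Finset.sum_le_sum fun q _ => key p q
    _ = _ := by
        rw [Finset.sum_const, Finset.sum_const, Finset.card_range, nsmul_eq_mul, nsmul_eq_mul]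
        push_cast
        ring

end Pool.Agent.Q173.GF
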