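import Pool.Agent.Q173.GF.Core

/-!
# Classes of objects with multiplicative double sequences

The numbers `h X p q` of equivalent objects of a class closed under products are equal, if they agree
up to subexponential factors and sublinear shifts of the indices, in infinitely many dimensions.
-/

set_option autoImplicit false

open Finset Polynomial

namespace Pool.Agent.Q173.GF

universe u

/-- A class of objects (for example smooth projective varieties) with their dimension, numbers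
`h X p q` (for example Hodge numbers), an equivalence relation and products. -/
structure Theory (V : Type u) where
  /-- the dimension -/
  dim : V → ℕ
  /-- the numbers -/
  h : V → ℕ → ℕ → ℕ
  /-- the equivalence -/
  eqv : V → V → Prop
  /-- the product -/
  prod : V → V → V

/-- The known properties. -/
structure Theory.IsKnown {V : Type u} (T : Theory V) : Prop where
  supp : ∀ X, Supp (T.dim X) (T.h X)
  one : ∀ X, 0 < T.h X 0 0
  dim_prod : ∀ X Y, T.dim (T.prod X Y) = T.dim X + T.dim Y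
  kunneth : ∀ X Y, T.h (T.prod X Y) = conv (T.h X) (T.h Y)
  refl : ∀ X, T.eqv X X
  symm : ∀ X Y, T.eqv X Y → T.eqv Y X
  eqv_dim : ∀ X Y, T.eqv X Y → T.dim X = T.dim Y
  eqv_prod : ∀ X Y X' Y', T.eqv X Y → T.eqv X' Y' → T.eqv (T.prod X X') (T.prod Y Y')
  curve : ∃ E, T.dim E = 1

/-- For all equivalent objects of dimension `n`, the numbers of one are at most `exp (ε n)` times the
sum of the numbers of the other one with indices at distance at most `ε n`. -/
def Theory.Close {V : Type u} (T : Theory V) (ε : ℝ) (n : ℕ) : Prop :=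
  ∀ X Y, T.eqv X Y → T.dim X = n → ∀ p q,
    (T.h X p q : ℝ) ≤ Real.exp (ε * n) * near n (T.h Y) (ε * n) p q

variable {V : Type u} {T : Theory V}

namespace Theory

/-- the value of the generating function -/
noncomputable def v (T : Theory V) (X : V) (x y : ℝ) : ℝ := val (T.dim X) (T.h X) x y

theorem IsKnown.v_prod (hT : T.IsKnown) (X Y : V) (x y : ℝ) :
    T.v (T.prod X Y) x y = T.v X x y * T.v Y x y := by
  unfold v
  rw [hT.dim_prod, hT.kunneth, val_conv (hT.supp X) (hT.supp Y)]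

theorem IsKnown.v_pos (hT : T.IsKnown) (X : V) {x y : ℝ} (hx : 0 < x) (hy : 0 < y) :
    0 < T.v X x y := val_pos (hT.one X) hx hy

/-- `Z × X ^ k` -/
def mulPow (T : Theory V) (Z X : V) : ℕ → V
  | 0 => Z
  | k + 1 => T.prod (T.mulPow Z X k) X

theorem IsKnown.dim_mulPow (hT : T.IsKnown) (Z X : V) (k : ℕ) :
    T.dim (T.mulPow Z X k) = T.dim Z + k * T.dim X := by
  induction k with
  | zero => simp [mulPow]
  | succ k ih =>
    rw [mulPow, hT.dim_prod, ih]
    ring

theorem IsKnown.v_mulPow (hT : T.IsKnown) (Z X : V) (k : ℕ) (x y : ℝ) :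
    T.v (T.mulPow Z X k) x y = T.v Z x y * T.v X x y ^ k := by
  induction k with
  | zero => simp [mulPow]
  | succ k ih =>
    rw [mulPow, hT.v_prod, ih]
    ring

theorem IsKnown.eqv_mulPow (hT : T.IsKnown) {Z W X Y : V} (h : T.eqv Z W) (h' : T.eqv X Y)
    (k : ℕ) : T.eqv (T.mulPow Z X k) (T.mulPow W Y k) := by
  induction k with
  | zero => exact h
  | succ k ih => exact hT.eqv_prod _ _ _ _ ih h'

/-- The main inequality. -/
theorem IsKnown.v_le (hT : T.IsKnown)
    (hc : ∀ ε : ℝ, 0 < ε → ∀ N : ℕ, ∃ n, N ≤ n ∧ T.Close ε n) {X Y : V} (hXY : T.eqv X Y)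
    {x y : ℝ} (hx : 0 < x) (hy : 0 < y) : T.v X x y ≤ T.v Y x y := by
  by_contra hcon
  push Not at hcon
  obtain ⟨E, hE⟩ := hT.curve
  have hv := hT.v_pos X hx hy
  have hv' := hT.v_pos Y hx hy
  have he := hT.v_pos E hx hy
  set v := T.v X x y with hvdef
  set v' := T.v Y x y with hv'def
  set e := T.v E x y with hedef
  obtain ⟨L, hLdef⟩ : ∃ L : ℝ, L = Real.log (v / v') := ⟨_, rfl⟩
  have hL : 0 < L := by
    rw [hLdef]
    exact Real.log_pos ((one_lt_div hv').2 hcon)
  obtain ⟨M, hMdef⟩ : ∃ M : ℝ, M = max (max x x⁻¹) (max y y⁻¹) := ⟨_, rfl⟩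
  have hxM : x ≤ M := by rw [hMdef]; exact (le_max_left _ _).trans (le_max_left _ _)
  have hxM' : x⁻¹ ≤ M := by rw [hMdef]; exact (le_max_right _ _).trans (le_max_left _ _)
  have hyM : y ≤ M := by rw [hMdef]; exact (le_max_left _ _).trans (le_max_right _ _)
  have hyM' : y⁻¹ ≤ M := by rw [hMdef]; exact (le_max_right _ _).trans (le_max_right _ _)
  have hM : 1 ≤ M := by
    rcases le_total 1 x with h | h
    · exact h.trans hxM
    · exact ((one_le_inv₀ hx).2 h).trans hxM'
  have hM0 : 0 < M := by linarith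
  obtain ⟨l, hl⟩ : ∃ l : ℝ, l = Real.log M := ⟨_, rfl⟩
  have hl0 : 0 ≤ l := by rw [hl]; exact Real.log_nonneg hM
  set m := T.dim X with hm
  obtain ⟨A, hA⟩ : ∃ A : ℝ, A = ((m : ℝ) + 1) * (3 + 2 * l) := ⟨_, rfl⟩
  have hA0 : 0 < A := by rw [hA]; positivity
  obtain ⟨ε, hεdef⟩ : ∃ ε : ℝ, ε = L / (2 * A) := ⟨_, rfl⟩
  have hε : 0 < ε := by rw [hεdef]; positivity
  have hAε : A * ε = L / 2 := by rw [hεdef]; field_simp
  obtain ⟨B, hB⟩ := exists_nat_gt (1 + (4 * ε - 4 * Real.log ε) / L)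
  obtain ⟨n, hn, hclose⟩ := hc ε hε ((m + 1) * (B + 1) + 1)
  obtain ⟨k, hk⟩ : ∃ k : ℕ, k = (n - 1) / (m + 1) := ⟨_, rfl⟩
  have hk1 : (m + 1) * k ≤ n - 1 := by rw [hk]; exact Nat.mul_div_le _ _
  have hk2 : n ≤ (m + 1) * (k + 1) := by
    have := Nat.lt_mul_div_succ (n - 1) (Nat.succ_pos m)
    rw [← hk] at this
    have h2 : n - 1 < (m + 1) * (k + 1) := this
    omega
  have hk3 : B + 1 ≤ k := by
    rw [hk, Nat.le_div_iff_mul_le (show 0 < m + 1 by omega)]
    have : (B + 1) * (m + 1) = (m + 1) * (B + 1) := by ring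
    omega
  have hmk : m * k ≤ n - 1 := by
    have : (m + 1) * k = m * k + k := by ring
    omega
  -- the test objects
  have hdimZ : T.dim (T.mulPow (T.mulPow E X k) E (n - 1 - m * k)) = n := by
    rw [hT.dim_mulPow, hT.dim_mulPow, hE, ← hm]
    have : k * m = m * k := by ring
    omega
  have hZ := hT.eqv_mulPow (hT.eqv_mulPow (hT.refl E) hXY k) (hT.refl E) (n - 1 - m * k)
  have hdimW : T.dim (T.mulPow (T.mulPow E Y k) E (n - 1 - m * k)) = n := by
    rw [← hT.eqv_dim _ _ hZ, hdimZ]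
  have hle := val_le (n := n) (K := Real.exp (ε * n)) (t := ε * n) (Real.exp_pos _).le hx hy hM hxM
    hxM' hyM hyM' (hclose _ _ hZ hdimZ)
  have h1 : val n (T.h (T.mulPow (T.mulPow E X k) E (n - 1 - m * k))) x y =
      e * v ^ k * e ^ (n - 1 - m * k) := by
    have h1' := hT.v_mulPow (T.mulPow E X k) E (n - 1 - m * k) x y
    have h1'' := hT.v_mulPow E X k x y
    rw [h1''] at h1'
    have h1a : T.v (T.mulPow (T.mulPow E X k) E (n - 1 - m * k)) x y =
        val n (T.h (T.mulPow (T.mulPow E X k) E (n - 1 - m * k))) x y := by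
      unfold Theory.v
      rw [hdimZ]
    rw [← h1a, h1']
  have h2 : val n (T.h (T.mulPow (T.mulPow E Y k) E (n - 1 - m * k))) x y =
      e * v' ^ k * e ^ (n - 1 - m * k) := by
    have h2' := hT.v_mulPow (T.mulPow E Y k) E (n - 1 - m * k) x y
    have h2'' := hT.v_mulPow E Y k x y
    rw [h2''] at h2'
    have h2a : T.v (T.mulPow (T.mulPow E Y k) E (n - 1 - m * k)) x y =
        val n (T.h (T.mulPow (T.mulPow E Y k) E (n - 1 - m * k))) x y := by
      unfold Theory.v
      rw [hdimW]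
    rw [← h2a, h2']
  rw [h1, h2] at hle
  -- cancel the powers of `e`
  have hle2 : (v / v') ^ k ≤ Real.exp (ε * n) * (M ^ (ε * n)) ^ 2 * ((n : ℝ) + 1) ^ 2 := by
    rw [div_pow, div_le_iff₀ (by positivity)]
    have hee : 0 < e * e ^ (n - 1 - m * k) := by positivity
    refine le_of_mul_le_mul_left ?_ hee
    calc e * e ^ (n - 1 - m * k) * v ^ k = e * v ^ k * e ^ (n - 1 - m * k) := by ring
      _ ≤ _ := hle
      _ = _ := by ring
  have hn1 : ((n : ℝ) + 1) ^ 2 ≤ (1 / ε) ^ 2 * Real.exp (2 * (ε * (n + 1))) := by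
    have h3 : ε * ((n : ℝ) + 1) ≤ Real.exp (ε * (n + 1)) := by
      have := Real.add_one_le_exp (ε * ((n : ℝ) + 1))
      linarith
    have h4 : (n : ℝ) + 1 ≤ (1 / ε) * Real.exp (ε * (n + 1)) := by
      rw [one_div, inv_mul_eq_div, le_div_iff₀ hε]
      linarith
    have h5 : Real.exp (2 * (ε * ((n : ℝ) + 1))) = Real.exp (ε * (n + 1)) ^ 2 := by
      rw [← Real.exp_nat_mul]
      norm_num
    rw [h5, ← mul_pow]
    exact pow_le_pow_left₀ (by positivity) h4 2
  have hMexp : (M ^ (ε * (n : ℝ))) ^ 2 = Real.exp (2 * (ε * n * l)) := by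
    rw [Real.rpow_def_of_pos hM0, ← Real.exp_nat_mul, hl]
    congr 1
    push_cast
    ring
  have hle3 : (v / v') ^ k ≤ (1 / ε) ^ 2 *
      Real.exp (ε * n + 2 * (ε * n * l) + 2 * (ε * (n + 1))) := by
    refine hle2.trans ?_
    rw [hMexp, Real.exp_add, Real.exp_add]
    calc Real.exp (ε * n) * Real.exp (2 * (ε * n * l)) * ((n : ℝ) + 1) ^ 2
        ≤ Real.exp (ε * n) * Real.exp (2 * (ε * n * l)) *
          ((1 / ε) ^ 2 * Real.exp (2 * (ε * (n + 1)))) :=
          mul_le_mul_of_nonneg_left hn1 (by positivity)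
      _ = _ := by ring
  have hlog := Real.log_le_log (by positivity) hle3
  rw [Real.log_pow, ← hLdef, Real.log_mul (by positivity) (Real.exp_pos _).ne', Real.log_exp,
    Real.log_pow, one_div, Real.log_inv] at hlog
  push_cast at hlog
  have hn2 : (n : ℝ) ≤ ((m : ℝ) + 1) * (k + 1) := by exact_mod_cast hk2
  have h6 : ε * n * (3 + 2 * l) ≤ L / 2 * (k + 1) := by
    calc ε * n * (3 + 2 * l) ≤ ε * (((m : ℝ) + 1) * (k + 1)) * (3 + 2 * l) := by gcongr
      _ = A * ε * (k + 1) := by rw [hA]; ring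
      _ = L / 2 * (k + 1) := by rw [hAε]
  have h7 : (k : ℝ) * L ≤ L / 2 * (k + 1) + 2 * ε - 2 * Real.log ε := by nlinarith
  have h8 : (B : ℝ) + 1 ≤ k := by exact_mod_cast hk3
  have h9 : (k : ℝ) * L ≤ L + (4 * ε - 4 * Real.log ε) := by linarith
  have h10 : (k : ℝ) ≤ 1 + (4 * ε - 4 * Real.log ε) / L := by
    rw [← sub_le_iff_le_add', le_div_iff₀ hL]
    linarith
  linarith

/-- The equivalence. -/
theorem IsKnown.main (hT : T.IsKnown) :
    (∀ X Y, T.eqv X Y → T.h X = T.h Y) ↔
      ∀ ε : ℝ, 0 < ε → ∀ N : ℕ, ∃ n, N ≤ n ∧ T.Close ε n := by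
  constructor
  · intro h ε hε N
    refine ⟨N, le_rfl, fun X Y hXY hX p q => ?_⟩
    have hY : T.dim Y = N := by rw [← hT.eqv_dim X Y hXY, hX]
    by_cases hpq : p ≤ N ∧ q ≤ N
    · have h1 : T.h X p q ≤ near N (T.h Y) (ε * N) p q := by
        classical
        rw [h X Y hXY]
        unfold near
        refine Finset.single_le_sum (f := fun i : ℕ × ℕ => T.h Y i.1 i.2)
          (fun i _ => Nat.zero_le _) (a := (p, q)) ?_
        rw [Finset.mem_filter, Finset.mem_product, Finset.mem_range, Finset.mem_range]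
        have : 0 ≤ ε * (N : ℝ) := by positivity
        exact ⟨⟨by omega, by omega⟩, by simpa using this, by simpa using this⟩
      have h2 : (T.h X p q : ℝ) ≤ near N (T.h Y) (ε * N) p q := by exact_mod_cast h1
      have h3 : (1 : ℝ) ≤ Real.exp (ε * N) := Real.one_le_exp (by positivity)
      have h4 : (0 : ℝ) ≤ near N (T.h Y) (ε * N) p q := Nat.cast_nonneg _
      nlinarith
    · rw [hT.supp X p q (by omega), Nat.cast_zero]
      positivity
  · intro hc X Y hXY
    refine eq_of_val (hT.supp X) (hT.supp Y) fun x y hx hy => le_antisymm ?_ ?_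
    · exact hT.v_le hc hXY hx hy
    · exact hT.v_le hc (hT.symm X Y hXY) hx hy

end Theory

end Pool.Agent.Q173.GF
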